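import Pool.Agent.W314.BA.Stm

/-! MP_f2742c_an, BA-DN: density of trigonometric polynomials with measurable coefficients. -/

open MeasureTheory Set Filter Topology
open scoped ENNReal NNReal

namespace Pool.Agent.W82.BA

noncomputable section

abbrev T' := UnitAddCircle
abbrev tm' : Measure T' := AddCircle.haarAddCircle

/-- bounded one variable error -/
theorem one_err (f : T' → ℂ) (hf : Measurable f) (M : ℝ) (hM : ∀ t, ‖f t‖ ≤ M) :
    (∀ N : ℕ, ∫ t, ‖f t - ∑ k ∈ Finset.Icc (-(N:ℤ)) N, fourierCoeff f k * fourier k t‖ ∂tm' ≤ 2 * M) ∧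
    Tendsto (fun N : ℕ => ∫ t, ‖f t - ∑ k ∈ Finset.Icc (-(N:ℤ)) N,
      fourierCoeff f k * fourier k t‖ ∂tm') atTop (𝓝 0) := by
  have hM0 : 0 ≤ M := (norm_nonneg _).trans (hM 0)
  have hL2 : MemLp f 2 tm' := MemLp.of_bound hf.aestronglyMeasurable M (ae_of_all _ hM)
  set φ : Lp ℂ 2 tm' := hL2.toLp f with hφ
  have hco : (φ : T' → ℂ) =ᵐ[tm'] f := hL2.coeFn_toLp
  have hfc : ∀ k, fourierCoeff (φ : T' → ℂ) k = fourierCoeff f k := by
    intro k
    unfold fourierCoeff
    apply integral_congr_ae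
    filter_upwards [hco] with t ht
    rw [ht]
  set S : ℕ → Lp ℂ 2 tm' := fun N => ∑ k ∈ Finset.Icc (-(N:ℤ)) N, fourierCoeff f k • fourierLp 2 k with hS
  -- L1 error bounded by L2 norm
  have hle : ∀ N : ℕ, ∫ t, ‖f t - ∑ k ∈ Finset.Icc (-(N:ℤ)) N, fourierCoeff f k * fourier k t‖ ∂tm' ≤
      ‖φ - S N‖ := by
    intro N
    have hcoS : (S N : T' → ℂ) =ᵐ[tm'] fun t => ∑ k ∈ Finset.Icc (-(N:ℤ)) N, fourierCoeff f k * fourier k t := by
      have h1 : (S N : T' → ℂ) =ᵐ[tm'] fun t => ∑ k ∈ Finset.Icc (-(N:ℤ)) N,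
          (fourierCoeff f k • fourierLp 2 k : Lp ℂ 2 tm') t := by
        have := Lp.coeFn_finsetSum (Finset.Icc (-(N:ℤ)) N)
          (fun k => (fourierCoeff f k • fourierLp 2 k : Lp ℂ 2 tm'))
        filter_upwards [this] with t ht
        rw [hS, ht]
        simp
      have h2 : ∀ᵐ t ∂tm', ∀ k : ℤ, (fourierCoeff f k • fourierLp 2 k : Lp ℂ 2 tm') t
          = fourierCoeff f k * fourier k t := by
        rw [ae_all_iff]
        intro k
        filter_upwards [Lp.coeFn_smul (fourierCoeff f k) (fourierLp 2 k : Lp ℂ 2 tm'),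
          coeFn_fourierLp (T := 1) 2 k] with t h3 h4
        rw [h3, Pi.smul_apply, h4, smul_eq_mul]
      filter_upwards [h1, h2] with t h3 h4
      rw [h3]
      exact Finset.sum_congr rfl fun k _ => h4 k
    have hco2 : (φ - S N : Lp ℂ 2 tm') =ᵐ[tm'] fun t => f t - ∑ k ∈ Finset.Icc (-(N:ℤ)) N, fourierCoeff f k * fourier k t := by
      filter_upwards [Lp.coeFn_sub φ (S N), hco, hcoS] with t h1 h2 h3
      rw [h1, Pi.sub_apply, h2, h3]
    have e1 : ∫ t, ‖f t - ∑ k ∈ Finset.Icc (-(N:ℤ)) N, fourierCoeff f k * fourier k t‖ ∂tm'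
        = ∫ t, ‖(φ - S N : Lp ℂ 2 tm') t‖ ∂tm' := by
      apply integral_congr_ae
      filter_upwards [hco2] with t ht
      rw [ht]
    rw [e1, integral_norm_eq_lintegral_enorm (Lp.aestronglyMeasurable _), ← eLpNorm_one_eq_lintegral_enorm, Lp.norm_def]
    apply ENNReal.toReal_mono (Lp.eLpNorm_ne_top _)
    exact eLpNorm_le_eLpNorm_of_exponent_le (by norm_num) (Lp.aestronglyMeasurable _)
  have hnφ : ‖φ‖ ≤ M := by
    rw [Lp.norm_def]
    have : eLpNorm (φ : T' → ℂ) 2 tm' ≤ ENNReal.ofReal M := by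
      rw [eLpNorm_congr_ae hco]
      refine (eLpNorm_le_of_ae_bound (ae_of_all _ hM)).trans ?_
      simp
    calc (eLpNorm (φ : T' → ℂ) 2 tm').toReal ≤ (ENNReal.ofReal M).toReal :=
          ENNReal.toReal_mono ENNReal.ofReal_ne_top this
      _ = M := ENNReal.toReal_ofReal hM0
  constructor
  · intro N
    refine (hle N).trans ?_
    have h1 : ‖φ - S N‖ ≤ ‖φ‖ + ‖S N‖ := norm_sub_le _ _
    have h2 : ‖S N‖ ^ 2 ≤ ‖φ‖ ^ 2 := by
      have h3 := (orthonormal_fourier (T := 1)).sum_inner_products_le (x := φ) (s := Finset.Icc (-(N:ℤ)) N)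
      have h4 : ∀ k : ℤ, inner ℂ (fourierLp (T := 1) 2 k) φ = fourierCoeff f k := by
        intro k
        have h5 := fourierBasis_repr (T := 1) φ k
        rw [fourierBasis.repr_apply_apply φ k, coe_fourierBasis] at h5
        rw [h5, hfc]
      have h5 := (orthonormal_fourier (T := 1)).inner_sum (fun k => fourierCoeff f k) (fun k => fourierCoeff f k) (Finset.Icc (-(N:ℤ)) N)
      have h6 : ‖S N‖ ^ 2 = RCLike.re (inner ℂ (S N) (S N)) := (inner_self_eq_norm_sq (𝕜 := ℂ) (S N)).symm
      rw [h6, hS]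
      simp only
      rw [h5]
      simp only [h4] at h3
      refine le_trans (le_of_eq ?_) h3
      rw [map_sum]
      apply Finset.sum_congr rfl
      intro k _
      rw [mul_comm]
      rw [Complex.mul_conj, Complex.normSq_eq_norm_sq]
      exact Complex.ofReal_re _
    have h3 : ‖S N‖ ≤ ‖φ‖ := by
      have := abs_le_of_sq_le_sq' h2 (norm_nonneg _)
      exact this.2
    linarith
  · have hs := hasSum_fourier_series_L2 (T := 1) φ
    simp only [hfc] at hs
    have hs2 : Tendsto (fun N : ℕ => S N) atTop (𝓝 φ) := by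
      have hI : Tendsto (fun N : ℕ => Finset.Icc (-(N:ℤ)) N) atTop atTop := by
        apply tendsto_atTop_finset_of_monotone
        · intro a b hab
          apply Finset.Icc_subset_Icc
          · have : (a:ℤ) ≤ b := by exact_mod_cast hab
            linarith
          · exact_mod_cast hab
        · intro x
          refine ⟨x.natAbs, ?_⟩
          rw [Finset.mem_Icc]
          omega
      exact hs.comp hI
    have h0 : Tendsto (fun N : ℕ => ‖φ - S N‖) atTop (𝓝 0) := by
      have := (tendsto_const_nhds (x := φ)).sub hs2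
      rw [sub_self] at this
      simpa using this.norm
    exact squeeze_zero (fun N => integral_nonneg fun t => norm_nonneg _) hle h0

theorem bdd_case {Y : Type} [MeasurableSpace Y] (μ : Measure Y) [IsProbabilityMeasure μ]
    (F : Y × T' → ℂ) (hF : Measurable F) (M : ℝ) (hM : ∀ p, ‖F p‖ ≤ M) (ε : ℝ) (hε : 0 < ε) :
    ∃ N : ℕ, ∫ p, ‖F p - ∑ k ∈ Finset.Icc (-(N : ℤ)) N,
      fourierCoeff (fun z => F (p.1, z)) k * fourier k p.2‖ ∂(μ.prod tm') ≤ ε := by
  have hmeas : ∀ k : ℤ, Measurable (fun y : Y => fourierCoeff (fun z => F (y, z)) k) := by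
    intro k
    unfold fourierCoeff
    have h1 : StronglyMeasurable (fun p : Y × T' => fourier (-k) p.2 • F p) := by
      apply Measurable.stronglyMeasurable
      exact ((map_continuous (fourier (-k))).measurable.comp measurable_snd).smul hF
    exact (h1.integral_prod_right (ν := tm')).measurable
  have hbd : ∀ (k : ℤ) (y : Y), ‖fourierCoeff (fun z => F (y, z)) k‖ ≤ M := by
    intro k y
    unfold fourierCoeff
    refine (norm_integral_le_of_norm_le_const (C := M) (ae_of_all _ fun t => ?_)).trans ?_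
    · rw [norm_smul]
      have : ‖fourier (-k) t‖ = 1 := by
        rw [fourier_apply]; exact Circle.norm_coe _
      rw [this, one_mul]
      exact hM _
    · simp
  have hM0 : 0 ≤ M ∨ IsEmpty Y := by
    by_cases h : Nonempty Y
    · obtain ⟨y⟩ := h
      exact Or.inl ((norm_nonneg _).trans (hM (y, 0)))
    · exact Or.inr (not_nonempty_iff.mp h)
  have hme : ∀ N : ℕ, Measurable (fun p : Y × T' => F p - ∑ k ∈ Finset.Icc (-(N : ℤ)) N,
      fourierCoeff (fun z => F (p.1, z)) k * fourier k p.2) := by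
    intro N
    refine hF.sub (Finset.measurable_sum _ fun k _ => ?_)
    exact ((hmeas k).comp measurable_fst).mul ((map_continuous (fourier k)).measurable.comp measurable_snd)
  have hint : ∀ N : ℕ, Integrable (fun p : Y × T' => ‖F p - ∑ k ∈ Finset.Icc (-(N : ℤ)) N,
      fourierCoeff (fun z => F (p.1, z)) k * fourier k p.2‖) (μ.prod tm') := by
    intro N
    refine Integrable.norm ?_
    refine Integrable.of_bound (C := M + ∑ k ∈ Finset.Icc (-(N : ℤ)) N, M) (hme N).aestronglyMeasurable (ae_of_all _ fun p => ?_)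
    refine (norm_sub_le _ _).trans (add_le_add (hM p) ?_)
    refine (norm_sum_le _ _).trans (Finset.sum_le_sum fun k _ => ?_)
    rw [norm_mul]
    have : ‖fourier k p.2‖ = 1 := by
      rw [fourier_apply]; exact Circle.norm_coe _
    rw [this, mul_one]
    exact hbd k p.1
  have hfub : ∀ N : ℕ, ∫ p, ‖F p - ∑ k ∈ Finset.Icc (-(N : ℤ)) N,
      fourierCoeff (fun z => F (p.1, z)) k * fourier k p.2‖ ∂(μ.prod tm') =
      ∫ y, ∫ z, ‖F (y, z) - ∑ k ∈ Finset.Icc (-(N : ℤ)) N,
      fourierCoeff (fun z => F (y, z)) k * fourier k z‖ ∂tm' ∂μ := by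
    intro N
    exact integral_prod _ (hint N)
  have hone : ∀ y : Y, _ := fun y => one_err (fun z => F (y, z)) (hF.comp (measurable_prodMk_left)) M
    (fun t => hM _)
  have htend : Tendsto (fun N : ℕ => ∫ y, ∫ z, ‖F (y, z) - ∑ k ∈ Finset.Icc (-(N : ℤ)) N,
      fourierCoeff (fun z => F (y, z)) k * fourier k z‖ ∂tm' ∂μ) atTop (𝓝 (∫ y, (0 : ℝ) ∂μ)) := by
    apply tendsto_integral_of_dominated_convergence (fun _ => 2 * M)
    · intro N
      exact ((hint N).integral_prod_left).aestronglyMeasurable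
    · exact integrable_const _
    · intro N
      refine ae_of_all _ fun y => ?_
      rw [Real.norm_of_nonneg (integral_nonneg fun t => norm_nonneg _)]
      exact (hone y).1 N
    · exact ae_of_all _ fun y => (hone y).2
  rw [integral_zero] at htend
  have hev := htend.eventually (gt_mem_nhds hε)
  obtain ⟨N, hN⟩ := hev.exists
  exact ⟨N, by rw [hfub N]; exact hN.le⟩

theorem main : Pool.Agent.W314.BA.DensStmt := by
  intro Y _ μ _ F hF ε hε
  change Integrable F (μ.prod tm') at hF
  have hF1 : MemLp F 1 (μ.prod tm') := memLp_one_iff_integrable.mpr hF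
  obtain ⟨g, hg, hg1⟩ := hF1.exists_simpleFunc_eLpNorm_sub_lt (by norm_num)
    (ε := ENNReal.ofReal (ε / 2)) (by
      rw [Ne, ENNReal.ofReal_eq_zero, not_le]; positivity)
  obtain ⟨M, hM⟩ : ∃ M : ℝ, ∀ p, ‖g p‖ ≤ M := g.exists_forall_norm_le
  obtain ⟨N, hN⟩ := bdd_case μ g g.measurable M hM (ε / 2) (by positivity)
  have hmeas : ∀ k : ℤ, Measurable (fun y : Y => fourierCoeff (fun z => g (y, z)) k) := by
    intro k
    unfold fourierCoeff
    have h1 : StronglyMeasurable (fun p : Y × T' => fourier (-k) p.2 • g p) := by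
      apply Measurable.stronglyMeasurable
      exact ((map_continuous (fourier (-k))).measurable.comp measurable_snd).smul g.measurable
    exact (h1.integral_prod_right (ν := tm')).measurable
  have hbd : ∀ (k : ℤ) (y : Y), ‖fourierCoeff (fun z => g (y, z)) k‖ ≤ M := by
    intro k y
    unfold fourierCoeff
    refine (norm_integral_le_of_norm_le_const (C := M) (ae_of_all _ fun t => ?_)).trans ?_
    · rw [norm_smul]
      have : ‖fourier (-k) t‖ = 1 := by
        rw [fourier_apply]; exact Circle.norm_coe _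
      rw [this, one_mul]
      exact hM _
    · simp
  refine ⟨N, fun k y => fourierCoeff (fun z => g (y, z)) k, fun k => ⟨hmeas k, M, hbd k⟩, ?_⟩
  have hgI : Integrable (fun p => ‖F p - g p‖) (μ.prod tm') :=
    (hF.sub (memLp_one_iff_integrable.mp hg1)).norm
  have hge : ∫ p, ‖F p - g p‖ ∂(μ.prod tm') ≤ ε / 2 := by
    have he := integral_norm_eq_lintegral_enorm (hF.aestronglyMeasurable.sub hg1.aestronglyMeasurable)
    change ∫ p, ‖F p - g p‖ ∂(μ.prod tm') = _ at he
    rw [he]
    rw [eLpNorm_one_eq_lintegral_enorm] at hg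
    have := ENNReal.toReal_mono ENNReal.ofReal_ne_top hg.le
    rw [ENNReal.toReal_ofReal (by positivity)] at this
    exact this
  have hpI : Integrable (fun p : Y × T' => ‖g p - ∑ k ∈ Finset.Icc (-(N : ℤ)) N,
      fourierCoeff (fun z => g (p.1, z)) k * fourier k p.2‖) (μ.prod tm') := by
    refine Integrable.norm ?_
    refine (memLp_one_iff_integrable.mp hg1).sub ?_
    refine integrable_finsetSum _ fun k _ => ?_
    refine Integrable.of_bound (C := M) ?_ (ae_of_all _ fun p => ?_)
    · exact (((hmeas k).comp measurable_fst).mul ((map_continuous (fourier k)).measurable.comp measurable_snd)).aestronglyMeasurable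
    · rw [norm_mul]
      have : ‖fourier k p.2‖ = 1 := by
        rw [fourier_apply]; exact Circle.norm_coe _
      rw [this, mul_one]
      exact hbd k p.1
  calc ∫ p, ‖F p - ∑ k ∈ Finset.Icc (-(N : ℤ)) N,
      fourierCoeff (fun z => g (p.1, z)) k * fourier k p.2‖ ∂(μ.prod Pool.Agent.W314.BA.tm)
      ≤ ∫ p, (‖F p - g p‖ + ‖g p - ∑ k ∈ Finset.Icc (-(N : ℤ)) N,
      fourierCoeff (fun z => g (p.1, z)) k * fourier k p.2‖) ∂(μ.prod tm') := by
        apply integral_mono_of_nonneg (ae_of_all _ fun p => norm_nonneg _) (hgI.add hpI)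
        refine ae_of_all _ fun p => ?_
        have := norm_add_le (F p - g p) (g p - ∑ k ∈ Finset.Icc (-(N : ℤ)) N,
          fourierCoeff (fun z => g (p.1, z)) k * fourier k p.2)
        rwa [sub_add_sub_cancel] at this
    _ = ∫ p, ‖F p - g p‖ ∂(μ.prod tm') + _ := integral_add hgI hpI
    _ ≤ ε / 2 + ε / 2 := add_le_add hge hN
    _ = ε := by ring

end

end Pool.Agent.W82.BA
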